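import Pool.Agent.KS6_73.RG.Main

/-!
# MP_52d521_co: the number of equivalent realisations is maximal at generic ones, in all dimensions

For every dimension `d` and every graph `G` that is independent in the generic `d`-dimensional
rigidity matroid (in particular every graph that is isostatic in dimension `d`), every realisation
`q` with finitely many equivalent realisations up to congruence has at most as many as a generic one.
-/

set_option autoImplicit false

namespace Pool.Agent.Results.MP_52d521_co.AllDimensions

open Pool.Agent.KS6_73.RG

/-- **Main theorem.** Let `G` be a finite graph, `p` a generic realisation of `G` in `ℂ^d` at which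
`G` has no nonzero self-stress, and `q` any realisation of `G` in `ℂ^d` with `c(G, q)` finite. Then
`c(G, q) ≤ c(G, p)`. -/
theorem result (d : ℕ) (V : Type) [Fintype V] (G : SimpleGraph V) (p q : V → Fin d → ℂ)
    (hp : AlgebraicIndependent ℚ (fun x : V × Fin d => p x.1 x.2)) (hG : NoStress G p)
    (hfin : (cls G q).Finite) : (cls G q).encard ≤ (cls G p).encard :=
  main G p q hp hG hfin

end Pool.Agent.Results.MP_52d521_co.AllDimensions
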